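import Pool.Agent.H.MP_364e44_co.C

/-! Bajnok-Ruzsa conjecture, part 2: the maximum size of a 5-independent subset of the cyclic
group of order `n`, divided by the square root of `n`, has no limit. -/

namespace Pool.Agent.Results.MP_364e44_co.NoLimitFive
open Finset Filter Topology Pool.Agent.H.MP_364e44_co

/-- `A` is `t`-independent: no integer combination of the elements of `A` whose coefficients have
absolute values summing to a number between `1` and `t` vanishes. -/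
def Indep {n : ℕ} (t : ℕ) (A : Finset (ZMod n)) : Prop :=
  ∀ l : ZMod n → ℤ, 1 ≤ ∑ a ∈ A, |l a| → ∑ a ∈ A, |l a| ≤ (t : ℤ) → ∑ a ∈ A, l a • a ≠ 0

/-- the maximum size of a `t`-independent subset of `ZMod n` -/
noncomputable def tau (n t : ℕ) : ℕ := sSup {m | ∃ A : Finset (ZMod n), Indep t A ∧ A.card = m}

lemma bdd (n t : ℕ) [NeZero n] :
    BddAbove {m | ∃ A : Finset (ZMod n), Indep t A ∧ A.card = m} :=
  ⟨Fintype.card (ZMod n), by rintro _ ⟨A, -, rfl⟩; exact card_le_univ A⟩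

lemma tau_mem (n t : ℕ) [NeZero n] : ∃ A : Finset (ZMod n), Indep t A ∧ A.card = tau n t :=
  Nat.sSup_mem (s := {m | ∃ A : Finset (ZMod n), Indep t A ∧ A.card = m})
    ⟨0, ∅, fun l h => by simp at h, rfl⟩ (bdd n t)

lemma le_tau {n t : ℕ} [NeZero n] {A : Finset (ZMod n)} (h : Indep t A) : A.card ≤ tau n t :=
  le_csSup (bdd n t) ⟨A, h, rfl⟩

lemma signed {n t : ℕ} {A : Finset (ZMod n)} (h : Indep t A) {ι : Type} [Fintype ι]
    (hι : Fintype.card ι ≤ t) (s : ι → ℤ) (a : ι → ZMod n) (hs : ∀ i, |s i| = 1)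
    (ha : ∀ i, a i ∈ A) (h0 : ∑ i, s i • a i = 0) :
    ∀ x ∈ A, ∑ i, (if a i = x then s i else 0) = 0 := by
  set l : ZMod n → ℤ := fun x => ∑ i, (if a i = x then s i else 0) with hl
  have h1 : ∑ x ∈ A, |l x| ≤ (t : ℤ) := by
    calc _ ≤ ∑ x ∈ A, ∑ i, (if a i = x then (1 : ℤ) else 0) := by
          refine sum_le_sum fun x _ => (abs_sum_le_sum_abs _ _).trans (sum_le_sum fun i _ => ?_)
          split_ifs
          · exact (hs i).le
          · simp
      _ = ∑ i : ι, (1 : ℤ) := by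
          rw [sum_comm]
          refine sum_congr rfl fun i _ => ?_
          rw [sum_ite_eq]; simp [ha i]
      _ ≤ t := by simpa using hι
  have h2 : ∑ x ∈ A, l x • x = 0 := by
    rw [← h0]
    simp only [hl, sum_smul]
    rw [sum_comm]
    refine sum_congr rfl fun i _ => ?_
    simp only [ite_smul, zero_smul]
    rw [sum_ite_eq]; simp [ha i]
  have h3 : ¬ 1 ≤ ∑ x ∈ A, |l x| := fun h3 => h l h3 h1 h2
  intro x hx
  have h4 := single_le_sum (f := fun x => |l x|) (fun x _ => abs_nonneg _) hx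
  have h5 : |l x| = 0 := by have := abs_nonneg (l x); omega
  exact abs_eq_zero.1 h5

lemma symm_set {n : ℕ} [NeZero n] {A : Finset (ZMod n)} (h : Indep 5 A) :
    ∃ B : Finset (ZMod n), B.card = 2 * A.card ∧ (∀ x ∈ B, -x ∈ B) ∧
    (∀ a ∈ B, ∀ b ∈ B, ∀ c ∈ B, ∀ d ∈ B, a + b = c + d → a + b ≠ 0 → a = c ∨ a = d) ∧
    (∀ a ∈ B, ∀ b ∈ B, ∀ c ∈ B, ∀ d ∈ B, ∀ e ∈ B, a + b + c + d + e ≠ 0) := by
  have dec : ∀ x ∈ A ∪ A.image (fun y => -y), ∃ s : ℤ, (s = 1 ∨ s = -1) ∧ ∃ a ∈ A, x = s • a := by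
    intro x hx
    rcases mem_union.1 hx with hx | hx
    · exact ⟨1, Or.inl rfl, x, hx, by simp⟩
    · obtain ⟨y, hy, rfl⟩ := mem_image.1 hx
      exact ⟨-1, Or.inr rfl, y, hy, by simp⟩
  have habs : ∀ s : ℤ, (s = 1 ∨ s = -1) → |s| = 1 := by rintro _ (rfl | rfl) <;> simp
  refine ⟨A ∪ A.image (fun y => -y), ?_, ?_, ?_, ?_⟩
  · rw [card_union_of_disjoint, card_image_of_injective _ neg_injective, two_mul]
    rw [disjoint_left]
    intro x hx hx'
    obtain ⟨y, hy, rfl⟩ := mem_image.1 hx'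
    have := signed h (ι := Fin 2) (by simp) ![1, 1] ![y, -y]
      (by intro i; fin_cases i <;> simp) (by intro i; fin_cases i <;> simp [hy, hx])
      (by simp [Fin.sum_univ_two]) y hy
    simp only [Fin.sum_univ_two, Matrix.cons_val_zero, Matrix.cons_val_one, if_true] at this
    split_ifs at this <;> omega
  · intro x hx
    rcases mem_union.1 hx with hx | hx
    · exact mem_union_right _ (mem_image_of_mem _ hx)
    · obtain ⟨y, hy, rfl⟩ := mem_image.1 hx
      exact mem_union_left _ (by simpa using hy)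
  · intro a ha b hb c hc d hd e1 e2
    obtain ⟨s1, t1, a1, m1, rfl⟩ := dec a ha
    obtain ⟨s2, t2, a2, m2, rfl⟩ := dec b hb
    obtain ⟨s3, t3, a3, m3, rfl⟩ := dec c hc
    obtain ⟨s4, t4, a4, m4, rfl⟩ := dec d hd
    have := signed h (ι := Fin 4) (by simp) ![s1, s2, -s3, -s4] ![a1, a2, a3, a4]
      (by intro i; fin_cases i <;> simp [habs _ t1, habs _ t2, habs _ t3, habs _ t4])
      (by intro i; fin_cases i <;> simp [m1, m2, m3, m4])
      (by
        simp only [Fin.sum_univ_four, Matrix.cons_val_zero, Matrix.cons_val_one,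
          Matrix.cons_val, neg_smul]
        rw [e1]; abel) a1 m1
    simp only [Fin.sum_univ_four, Matrix.cons_val_zero, Matrix.cons_val_one,
      Matrix.cons_val, if_true] at this
    by_contra hcon
    push Not at hcon
    obtain ⟨n1, n2⟩ := hcon
    have k2 : a2 = a1 → s2 = s1 := by
      rintro rfl
      by_contra hh
      apply e2
      rw [← add_smul, show s1 + s2 = 0 by omega, zero_smul]
    have k3 : a3 = a1 → s3 ≠ s1 := by rintro rfl rfl; exact n1 rfl
    have k4 : a4 = a1 → s4 ≠ s1 := by rintro rfl rfl; exact n2 rfl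
    split_ifs at this with c2 c3 c4 c4 c3 c4 c4 <;>
      first
      | (have := k2 c2; have := k3 c3; have := k4 c4; omega)
      | (have := k2 c2; have := k3 c3; omega)
      | (have := k2 c2; have := k4 c4; omega)
      | (have := k3 c3; have := k4 c4; omega)
      | (have := k2 c2; omega)
      | (have := k3 c3; omega)
      | (have := k4 c4; omega)
      | omega
  · intro a ha b hb c hc d hd e he e1
    obtain ⟨s1, t1, a1, m1, rfl⟩ := dec a ha
    obtain ⟨s2, t2, a2, m2, rfl⟩ := dec b hb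
    obtain ⟨s3, t3, a3, m3, rfl⟩ := dec c hc
    obtain ⟨s4, t4, a4, m4, rfl⟩ := dec d hd
    obtain ⟨s5, t5, a5, m5, rfl⟩ := dec e he
    have hmem : ∀ i : Fin 5, ![a1, a2, a3, a4, a5] i ∈ A := by
      intro i; fin_cases i <;> simp [m1, m2, m3, m4, m5]
    have := signed h (ι := Fin 5) (by simp) ![s1, s2, s3, s4, s5] ![a1, a2, a3, a4, a5]
      (by intro i; fin_cases i <;> simp [habs _ t1, habs _ t2, habs _ t3, habs _ t4, habs _ t5])
      hmem
      (by
        simp only [Fin.sum_univ_five, Matrix.cons_val_zero, Matrix.cons_val_one,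
          Matrix.cons_val]
        exact e1)
    have h2 := sum_eq_zero this
    rw [sum_comm] at h2
    have h3 : ∀ i : Fin 5, ∑ x ∈ A, (if ![a1, a2, a3, a4, a5] i = x then
        ![s1, s2, s3, s4, s5] i else 0) = ![s1, s2, s3, s4, s5] i := by
      intro i
      rw [sum_ite_eq, if_pos (hmem i)]
    simp only [h3, Fin.sum_univ_five, Matrix.cons_val_zero, Matrix.cons_val_one,
      Matrix.cons_val] at h2
    omega

lemma ratio_le_one (n : ℕ) (hn : 1 ≤ n) : (tau n 5 : ℝ) / √n ≤ 1 := by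
  have : NeZero n := ⟨by omega⟩
  obtain ⟨A, hA, hc⟩ := tau_mem n 5
  obtain ⟨B, h1, -, h3, -⟩ := symm_set hA
  have h := card_sq_le h3
  rw [h1, hc] at h
  push_cast at h
  have hn' : (0 : ℝ) < n := by exact_mod_cast hn
  rw [div_le_one (Real.sqrt_pos.2 hn')]
  exact Real.le_sqrt_of_sq_le (by nlinarith)

lemma freq_le : ∃ᶠ n : ℕ in atTop, (tau n 5 : ℝ) / √n ≤ 2 / 5 := by
  obtain ⟨p0, h⟩ := H.MP_364e44_co.upper
  rw [frequently_atTop]
  intro a
  obtain ⟨p, hp1, hp2⟩ := Nat.exists_infinite_primes (max a p0)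
  have : Fact p.Prime := ⟨hp2⟩
  refine ⟨p, le_trans (le_max_left _ _) hp1, ?_⟩
  obtain ⟨A, hA, hc⟩ := tau_mem p 5
  obtain ⟨B, h1, h2, h3, h4⟩ := symm_set hA
  have h5 := h p (le_trans (le_max_right _ _) hp1) B h2 h3 h4
  rw [h1, hc] at h5
  push_cast at h5
  have hn' : (0 : ℝ) < p := by exact_mod_cast hp2.pos
  rw [div_le_iff₀ (Real.sqrt_pos.2 hn')]
  have : (5 / 2 * tau p 5 : ℝ) ≤ √p := Real.le_sqrt_of_sq_le (by nlinarith)
  linarith

lemma split_pos {ι : Type} [DecidableEq ι] (I : Finset ι) (μ : ι → ℤ) :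
    ∃ P : Multiset ι, (∀ x ∈ P, x ∈ I ∧ 0 < μ x) ∧
      ∀ φ : ι → ℤ, (P.map φ).sum = ∑ x ∈ I, ((μ x).toNat : ℤ) * φ x := by
  refine ⟨∑ x ∈ I, Multiset.replicate (μ x).toNat x, ?_, ?_⟩
  · intro x hx
    obtain ⟨y, hy, hx⟩ := Multiset.mem_sum.1 hx
    obtain ⟨h1, rfl⟩ := Multiset.mem_replicate.1 hx
    exact ⟨hy, by omega⟩
  · intro φ
    induction I using Finset.induction_on with
    | empty => simp
    | insert a I ha ih => rw [sum_insert ha, sum_insert ha, Multiset.map_add, Multiset.sum_add, ih]; simp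

lemma structure_small {ι : Type} [DecidableEq ι] (I : Finset ι) (μ : ι → ℤ)
    (h0 : ∑ x ∈ I, μ x = 0) (h1 : 1 ≤ ∑ x ∈ I, |μ x|) (h5 : ∑ x ∈ I, |μ x| ≤ 5) :
    (∃ x ∈ I, ∃ y ∈ I, x ≠ y ∧ ∀ φ : ι → ℤ, ∑ z ∈ I, μ z * φ z = φ x - φ y) ∨
    (∃ x ∈ I, ∃ x' ∈ I, ∃ y ∈ I, ∃ y' ∈ I, x ≠ y ∧ x ≠ y' ∧
      ∀ φ : ι → ℤ, ∑ z ∈ I, μ z * φ z = φ x + φ x' - (φ y + φ y')) := by
  obtain ⟨P, hP1, hP2⟩ := split_pos I μ
  obtain ⟨Q, hQ1, hQ2⟩ := split_pos I (fun x => -μ x)
  have hd : ∀ φ : ι → ℤ, ∑ z ∈ I, μ z * φ z = (P.map φ).sum - (Q.map φ).sum := by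
    intro φ
    rw [hP2, hQ2, ← sum_sub_distrib]
    refine sum_congr rfl fun z _ => ?_
    rw [← sub_mul]; congr 1; omega
  have c1 : (P.card : ℤ) = Q.card := by
    have := hd (fun _ => 1)
    simp only [mul_one, h0, Multiset.map_const', Multiset.sum_replicate, nsmul_eq_mul] at this
    omega
  have c2 : (P.card : ℤ) + Q.card = ∑ x ∈ I, |μ x| := by
    have a1 := hP2 (fun _ => 1)
    have a2 := hQ2 (fun _ => 1)
    simp only [mul_one, Multiset.map_const', Multiset.sum_replicate, nsmul_eq_mul] at a1 a2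
    rw [a1, a2, ← sum_add_distrib]
    refine sum_congr rfl fun z _ => ?_
    rcases abs_cases (μ z) with h | h <;> omega
  have hne : ∀ x ∈ P, ∀ y ∈ Q, x ≠ y := by
    rintro x hx y hy rfl
    have := (hP1 x hx).2
    have := (hQ1 x hy).2
    omega
  have : (P.card = 1 ∧ Q.card = 1) ∨ (P.card = 2 ∧ Q.card = 2) := by omega
  rcases this with ⟨a, b⟩ | ⟨a, b⟩
  · obtain ⟨x, rfl⟩ := Multiset.card_eq_one.1 a
    obtain ⟨y, rfl⟩ := Multiset.card_eq_one.1 b
    exact Or.inl ⟨x, (hP1 x (by simp)).1, y, (hQ1 y (by simp)).1, hne x (by simp) y (by simp),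
      fun φ => by rw [hd]; simp⟩
  · obtain ⟨x, x', rfl⟩ := Multiset.card_eq_two.1 a
    obtain ⟨y, y', rfl⟩ := Multiset.card_eq_two.1 b
    exact Or.inr ⟨x, (hP1 x (by simp)).1, x', (hP1 x' (by simp)).1, y, (hQ1 y (by simp)).1,
      y', (hQ1 y' (by simp)).1, hne x (by simp) y (by simp), hne x (by simp) y' (by simp),
      fun φ => by rw [hd]; simp⟩

lemma construction (p : ℕ) (hp : p.Prime) : p - 1 ≤ tau (6 * (p * (p - 1))) 5 := by
  have : Fact p.Prime := ⟨hp⟩
  have hp2 := hp.two_le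
  obtain ⟨q, hq⟩ : ∃ q, p = q + 1 := ⟨p - 1, by omega⟩
  have hq' : p - 1 = q := by omega
  rw [hq']
  have : NeZero (6 * (p * q)) := ⟨by
    have : 0 < q := by omega
    positivity⟩
  obtain ⟨g, hg⟩ := IsCyclic.exists_ofOrder_eq_natCard (α := (ZMod p)ˣ)
  rw [Nat.card_eq_fintype_card, ZMod.card_units, hq'] at hg
  set u : ℕ → ZMod p := fun x => ((g ^ x : (ZMod p)ˣ) : ZMod p) with hu
  have huinj : ∀ x ∈ range q, ∀ y ∈ range q, u x = u y → x = y := by
    intro x hx y hy h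
    refine pow_injOn_Iio_orderOf (x := g) ?_ ?_ (Units.ext h)
    · rw [hg]; simpa using hx
    · rw [hg]; simpa using hy
  set b : ℕ → ℤ := fun x => p * x + q * ((u x).val : ℤ) with hb
  set a : ℕ → ZMod (6 * (p * q)) := fun x => ((1 + 6 * b x : ℤ) : ZMod (6 * (p * q))) with ha
  have hqp : (q : ZMod p) = -1 := by
    have : ((q + 1 : ℕ) : ZMod p) = 0 := by rw [← hq]; simp
    push_cast at this
    exact eq_neg_of_add_eq_zero_left this
  have hbp : ∀ x, ((b x : ℤ) : ZMod p) = -u x := by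
    intro x
    simp only [hb]
    push_cast
    rw [hqp]; simp
  have hbq : ∀ x, (q : ℤ) ∣ b x - x := by
    intro x
    refine ⟨x + (u x).val, ?_⟩
    simp only [hb]
    have : (p : ℤ) = q + 1 := by exact_mod_cast hq
    rw [this]; ring
  have hainj : Set.InjOn a (range q : Finset ℕ) := by
    intro x hx y hy h
    have h1 := (ZMod.intCast_eq_intCast_iff_dvd_sub _ _ _).1 h
    have h2 : (p : ℤ) ∣ b y - b x := by
      have : (6 : ℤ) * (p * q) ∣ 6 * (b y - b x) := by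
        convert h1 using 1
        · push_cast; ring
        · ring
      exact Dvd.dvd.trans (Dvd.intro _ rfl) (Int.dvd_of_mul_dvd_mul_left (by norm_num) this)
    have h3 := (ZMod.intCast_eq_intCast_iff_dvd_sub _ _ _).2 h2
    rw [hbp, hbp] at h3
    exact huinj x hx y hy (neg_injective h3)
  have hind : Indep 5 ((range q).image a) := by
    intro l h1 h5 h0
    rw [sum_image hainj] at h1 h5 h0
    have h2 : ((∑ x ∈ range q, l (a x) * (1 + 6 * b x) : ℤ) : ZMod (6 * (p * q))) = 0 := by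
      rw [← h0, Int.cast_sum]
      refine sum_congr rfl fun x _ => ?_
      rw [Int.cast_mul, zsmul_eq_mul]
    rw [ZMod.intCast_zmod_eq_zero_iff_dvd] at h2
    have e : ∑ x ∈ range q, l (a x) * (1 + 6 * b x) =
        ∑ x ∈ range q, l (a x) + 6 * ∑ x ∈ range q, l (a x) * b x := by
      rw [mul_sum, ← sum_add_distrib]
      exact sum_congr rfl fun x _ => by ring
    rw [e] at h2
    push_cast at h2 h5
    have h3 : (6 : ℤ) ∣ ∑ x ∈ range q, l (a x) :=
      (dvd_add_left (Dvd.intro _ rfl)).1 (Dvd.dvd.trans (Dvd.intro _ rfl) h2)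
    have h4 := abs_le.1 ((abs_sum_le_sum_abs (fun x => l (a x)) (range q)).trans h5)
    have h6 : ∑ x ∈ range q, l (a x) = 0 := by omega
    rw [h6, zero_add] at h2
    have h7 := Int.dvd_of_mul_dvd_mul_left (by norm_num) h2
    have h8 : (p : ℤ) ∣ ∑ x ∈ range q, l (a x) * b x := Dvd.dvd.trans (Dvd.intro _ rfl) h7
    have h9 : (q : ℤ) ∣ ∑ x ∈ range q, l (a x) * b x := Dvd.dvd.trans (Dvd.intro_left _ rfl) h7
    rw [← ZMod.intCast_zmod_eq_zero_iff_dvd] at h8
    rcases structure_small (range q) (fun x => l (a x)) h6 h1 h5 with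
      ⟨x, hx, y, hy, hne, hφ⟩ | ⟨x, hx, x', hx', y, hy, y', hy', hne, hne', hφ⟩
    · rw [hφ b] at h8
      push_cast at h8
      rw [hbp, hbp] at h8
      exact hne (huinj x hx y hy (by linear_combination -h8))
    · rw [hφ b] at h8 h9
      push_cast at h8
      rw [hbp, hbp, hbp, hbp] at h8
      have m1 : (q : ℤ) ∣ ((y + y' : ℕ) : ℤ) - ((x + x' : ℕ) : ℤ) := by
        have := dvd_sub (dvd_sub (dvd_add (hbq x) (hbq x')) (dvd_add (hbq y) (hbq y'))) h9
        have e' : ((y + y' : ℕ) : ℤ) - ((x + x' : ℕ) : ℤ) =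
            b x - x + (b x' - x') - (b y - y + (b y' - y')) - (b x + b x' - (b y + b y')) := by
          push_cast; ring
        rw [e']; exact this
      have m2 : g ^ (x + x') = g ^ (y + y') := by
        rw [pow_eq_pow_iff_modEq, hg]
        exact (Nat.modEq_iff_dvd).2 m1
      have m3 : u x * u x' = u y * u y' := by
        simp only [hu]
        rw [← Units.val_mul, ← Units.val_mul, ← pow_add, ← pow_add, m2]
      have m4 : (u x - u y) * (u x - u y') = 0 := by linear_combination (-u x) * h8 - m3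
      rcases mul_eq_zero.1 m4 with m | m
      · exact hne (huinj x hx y hy (sub_eq_zero.1 m))
      · exact hne' (huinj x hx y' hy' (sub_eq_zero.1 m))
  have := le_tau hind
  rwa [card_image_of_injOn hainj, card_range] at this

lemma freq_ge : ∃ᶠ n : ℕ in atTop, 405 / 1000 ≤ (tau n 5 : ℝ) / √n := by
  rw [frequently_atTop]
  intro a
  obtain ⟨p, hp1, hp2⟩ := Nat.exists_infinite_primes (max a 100)
  have h1 : a ≤ p := le_trans (le_max_left _ _) hp1
  have h2 : 100 ≤ p := le_trans (le_max_right _ _) hp1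
  have h := construction p hp2
  obtain ⟨q, rfl⟩ : ∃ q, p = q + 1 := ⟨p - 1, by omega⟩
  rw [Nat.add_sub_cancel] at h
  refine ⟨6 * ((q + 1) * q), by nlinarith, ?_⟩
  have hq : (99 : ℝ) ≤ q := by exact_mod_cast (show 99 ≤ q by omega)
  have h3 : (q : ℝ) ≤ tau (6 * ((q + 1) * q)) 5 := by exact_mod_cast h
  have h4 : (0 : ℝ) < ((6 * ((q + 1) * q) : ℕ) : ℝ) := by push_cast; positivity
  rw [le_div_iff₀ (Real.sqrt_pos.2 h4)]
  have : √((6 * ((q + 1) * q) : ℕ) : ℝ) ≤ 1000 / 405 * q := by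
    refine Real.sqrt_le_iff.2 ⟨by positivity, ?_⟩
    push_cast; nlinarith
  linarith

theorem result :
    (¬ ∃ L : ℝ, Tendsto (fun n : ℕ => (tau n 5 : ℝ) / √(n : ℝ)) atTop (𝓝 L)) ∧
    liminf (fun n : ℕ => (tau n 5 : ℝ) / √(n : ℝ)) atTop <
      limsup (fun n : ℕ => (tau n 5 : ℝ) / √(n : ℝ)) atTop := by
  have b1 : IsBoundedUnder (· ≥ ·) atTop (fun n : ℕ => (tau n 5 : ℝ) / √(n : ℝ)) :=
    isBoundedUnder_of ⟨0, fun n => by positivity⟩
  have b2 : IsBoundedUnder (· ≤ ·) atTop (fun n : ℕ => (tau n 5 : ℝ) / √(n : ℝ)) :=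
    isBoundedUnder_of_eventually_le (a := 1) (eventually_atTop.2 ⟨1, ratio_le_one⟩)
  have h1 := liminf_le_of_frequently_le freq_le b1
  have h2 := le_limsup_of_frequently_le freq_ge b2
  have h3 : liminf (fun n : ℕ => (tau n 5 : ℝ) / √(n : ℝ)) atTop <
      limsup (fun n : ℕ => (tau n 5 : ℝ) / √(n : ℝ)) atTop := by linarith
  refine ⟨?_, h3⟩
  rintro ⟨L, hL⟩
  rw [hL.liminf_eq, hL.limsup_eq] at h3
  exact lt_irrefl _ h3

end Pool.Agent.Results.MP_364e44_co.NoLimitFive
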